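import Pool.Agent.L7h31.CE.Stm

set_option autoImplicit false

namespace Pool.Agent.L7h31.CE

open Set

theorem vor_local {r : ℕ} (D : Dat r) (i : ℤ) (ν : Fin r → ℤ) (z : E r)
    (h : z ∈ vor (pts D) (cen D i ν)) :
    ∀ t : ℤ, |t| ≤ 1 → ∀ μ, dist z (cen D i ν) ≤ dist z (cen D (i + t) μ) :=
  fun t _ μ => h _ ⟨i + t, μ, rfl⟩

theorem s_ADJ : S_EXT → S_ADJ := by
  rintro hE r D i j ν μ ⟨z, h1, h2⟩
  have e1 := abs_le.1 (hE r D i ν z (vor_local D i ν z h1)).2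
  have e2 := abs_le.1 (hE r D j μ z (vor_local D j μ z h2)).2
  have hr : (0 : ℝ) ≤ r := Nat.cast_nonneg r
  have h3 : ((r : ℝ) + 1) * ((j : ℝ) - i) < ((r : ℝ) + 1) * 2 := by nlinarith [e1.1, e1.2, e2.1, e2.2]
  have h4 : ((r : ℝ) + 1) * ((i : ℝ) - j) < ((r : ℝ) + 1) * 2 := by nlinarith [e1.1, e1.2, e2.1, e2.2]
  have h5 : (j : ℝ) - i < 2 := lt_of_mul_lt_mul_left h3 (by linarith)
  have h6 : (i : ℝ) - j < 2 := lt_of_mul_lt_mul_left h4 (by linarith)
  have h7 : j - i < 2 := by exact_mod_cast h5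
  have h8 : i - j < 2 := by exact_mod_cast h6
  rw [abs_le]
  omega

theorem s_COR : S_IMG → S_ADJ → S_COR := by
  intro hG hL r K D hr m hm P hP Q hQ
  obtain ⟨_, ⟨i, ν, rfl⟩, rfl⟩ := hP
  obtain ⟨_, ⟨j, μ, rfl⟩, rfl⟩ := hQ
  obtain ⟨g, hgP, hg⟩ := hG r K D hr i j ν μ
  refine ⟨g, hgP, ?_⟩
  set T := vtiles (pts D) with hT
  have lev : ∀ (l0 : ℤ) (a0 : Fin r → ℤ) (s : ℕ), ∀ R ∈ corona T (vor (pts D) (cen D l0 a0)) s,
      ∃ (t : ℤ) (b : Fin r → ℤ), |t| ≤ s ∧ R = vor (pts D) (cen D (l0 + t) b) := by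
    intro l0 a0 s
    induction s with
    | zero =>
      intro R hR
      exact ⟨0, a0, by simp, by rw [add_zero]; exact hR⟩
    | succ s ih =>
      rintro R ⟨⟨_, ⟨L, b, rfl⟩, rfl⟩, R', hR', hne⟩
      obtain ⟨t', b', h1, rfl⟩ := ih R' hR'
      have h2 := hL r D (l0 + t') L b' b hne
      refine ⟨L - l0, b, ?_, by rw [add_sub_cancel]⟩
      have h3 : L - l0 = (L - (l0 + t')) + t' := by ring
      rw [h3]
      refine (abs_add_le _ _).trans ?_
      push_cast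
      linarith
  have fwd : ∀ s : ℕ, s ≤ K → ∀ R ∈ corona T (vor (pts D) (cen D i ν)) s,
      g '' R ∈ corona T (vor (pts D) (cen D j μ)) s := by
    intro s
    induction s with
    | zero =>
      intro _ R hR
      have hR' : R = vor (pts D) (cen D i ν) := hR
      show g '' R = vor (pts D) (cen D j μ)
      rw [hR', hgP]
    | succ s ih =>
      intro hs R hR
      obtain ⟨t, b, ht, hRL⟩ := lev i ν (s + 1) R hR
      obtain ⟨hT', R', hR', hne⟩ := hR
      have h1 : |t| ≤ K := by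
        have : ((s + 1 : ℕ) : ℤ) ≤ K := by exact_mod_cast hs
        linarith
      obtain ⟨b', hb'⟩ := (hg t h1).1 b
      refine ⟨⟨_, ⟨_, b', rfl⟩, by rw [hRL, hb']⟩, g '' R', ih (by omega) R' hR', ?_⟩
      rw [← Set.image_inter g.injective]
      exact hne.image _
  have bwd : ∀ s : ℕ, s ≤ K → ∀ R ∈ corona T (vor (pts D) (cen D j μ)) s,
      ∃ R0 ∈ corona T (vor (pts D) (cen D i ν)) s, g '' R0 = R := by
    intro s
    induction s with
    | zero =>
      intro _ R hR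
      have hR' : R = vor (pts D) (cen D j μ) := hR
      exact ⟨vor (pts D) (cen D i ν), rfl, by rw [hR', hgP]⟩
    | succ s ih =>
      intro hs R hR
      obtain ⟨t, b', ht, hRL⟩ := lev j μ (s + 1) R hR
      obtain ⟨hT', R', hR', hne⟩ := hR
      have h1 : |t| ≤ K := by
        have : ((s + 1 : ℕ) : ℤ) ≤ K := by exact_mod_cast hs
        linarith
      obtain ⟨b, hb⟩ := (hg t h1).2 b'
      obtain ⟨R0, hR0, hgR0⟩ := ih (by omega) R' hR'
      refine ⟨vor (pts D) (cen D (i + t) b), ⟨⟨_, ⟨_, b, rfl⟩, rfl⟩, R0, hR0, ?_⟩, by rw [hb, hRL]⟩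
      have h2 : (g '' (R0 ∩ vor (pts D) (cen D (i + t) b))).Nonempty := by
        rw [Set.image_inter g.injective, hgR0, hb, ← hRL]
        exact hne
      exact Set.image_nonempty.1 h2
  ext R
  constructor
  · rintro ⟨R0, hR0, rfl⟩
    exact fwd m hm R0 hR0
  · intro hR
    obtain ⟨R0, h1, h2⟩ := bwd m hm R hR
    exact ⟨R0, h1, h2⟩

end Pool.Agent.L7h31.CE
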