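import Pool.Agent.L7h31.CE.Stm

set_option autoImplicit false

namespace Pool.Agent.L7h31.CE

open Set

/-- nearest lattice point of a layer -/
theorem near_layer {r : ℕ} (D : Dat r) (z : E r) (j : ℤ) (hDST : S_DST) :
    ∃ μ : Fin r → ℤ, dist z (cen D j μ) ^ 2 ≤ (r : ℝ) / 4 + (ver z - ((r : ℝ) + 1) * j) ^ 2 := by
  obtain ⟨h1, -, h3, -⟩ := hDST r
  refine ⟨fun a => round (hor z a - D.w j a), ?_⟩
  rw [h3]
  have hv : ver (cen D j fun a => round (hor z a - D.w j a)) = ((r : ℝ) + 1) * j := (h1 _ _).2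
  rw [hv]
  have hs : ∑ a, (hor z a - hor (cen D j fun a => round (hor z a - D.w j a)) a) ^ 2 ≤
      ∑ _a : Fin r, (1 / 4 : ℝ) := by
    refine Finset.sum_le_sum fun a _ => ?_
    have hh : hor (cen D j fun a => round (hor z a - D.w j a)) a =
        D.w j a + round (hor z a - D.w j a) := (h1 _ _).1 a
    rw [hh]
    have h4 := abs_sub_round (hor z a - D.w j a)
    have h5 : hor z a - (D.w j a + round (hor z a - D.w j a)) =
        (hor z a - D.w j a) - round (hor z a - D.w j a) := by ring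
    rw [h5, ← sq_abs]
    have h6 := abs_nonneg ((hor z a - D.w j a) - round (hor z a - D.w j a))
    nlinarith
  have h7 : ∑ _a : Fin r, (1 / 4 : ℝ) = (r : ℝ) / 4 := by
    simp
    ring
  linarith

theorem s_EXT : S_DST → S_EXT := by
  intro hDST r D i ν z hz
  obtain ⟨h1, -, h3, -⟩ := hDST r
  have hr : (0 : ℝ) ≤ r := Nat.cast_nonneg r
  have hc : ∀ (j : ℤ) (μ : Fin r → ℤ) a, hor (cen D j μ) a = D.w j a + μ a := fun j μ a =>
    (h1 _ _).1 a
  have hcv : ∀ (j : ℤ) (μ : Fin r → ℤ), ver (cen D j μ) = ((r : ℝ) + 1) * j := fun j μ => (h1 _ _).2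
  have hsq : ∀ t : ℤ, |t| ≤ 1 → ∀ μ, dist z (cen D i ν) ^ 2 ≤ dist z (cen D (i + t) μ) ^ 2 :=
    fun t ht μ => pow_le_pow_left₀ dist_nonneg (hz t ht μ) 2
  refine ⟨fun a => ?_, ?_⟩
  · -- horizontal
    have key : ∀ e : ℤ, (e = 1 ∨ e = -1) → (e : ℝ) * (hor z a - hor (cen D i ν) a) ≤ 1 / 2 := by
      intro e he
      have h4 := hsq 0 (by norm_num) (Function.update ν a (ν a + e))
      rw [add_zero, h3, h3, hcv, hcv] at h4
      have h5 : ∑ b, (hor z b - hor (cen D i ν) b) ^ 2 ≤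
          ∑ b, (hor z b - hor (cen D i (Function.update ν a (ν a + e))) b) ^ 2 := by linarith
      rw [← Finset.add_sum_erase _ _ (Finset.mem_univ a),
        ← Finset.add_sum_erase Finset.univ
          (fun b => (hor z b - hor (cen D i (Function.update ν a (ν a + e))) b) ^ 2)
          (Finset.mem_univ a)] at h5
      have h6 : ∑ b ∈ Finset.univ.erase a, (hor z b - hor (cen D i ν) b) ^ 2 =
          ∑ b ∈ Finset.univ.erase a,
            (hor z b - hor (cen D i (Function.update ν a (ν a + e))) b) ^ 2 := by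
        refine Finset.sum_congr rfl fun b hb => ?_
        rw [hc, hc, Function.update_of_ne (Finset.ne_of_mem_erase hb)]
      rw [h6] at h5
      simp only [hc, Function.update_self] at h5 ⊢
      push_cast at h5
      rcases he with rfl | rfl <;> push_cast at h5 ⊢ <;> nlinarith
    have k1 := key 1 (Or.inl rfl)
    have k2 := key (-1) (Or.inr rfl)
    push_cast at k1 k2
    rw [abs_le]
    constructor <;> linarith
  · -- vertical
    have hlow : (ver z - ((r : ℝ) + 1) * i) ^ 2 ≤ dist z (cen D i ν) ^ 2 := by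
      rw [h3, hcv]
      have : 0 ≤ ∑ a, (hor z a - hor (cen D i ν) a) ^ 2 := Finset.sum_nonneg fun a _ => sq_nonneg _
      linarith
    obtain ⟨μ1, g1⟩ := near_layer D z (i + 1) hDST
    obtain ⟨μ2, g2⟩ := near_layer D z (i + (-1)) hDST
    have k1 := hsq 1 (by norm_num) μ1
    have k2 := hsq (-1) (by norm_num) μ2
    push_cast at g1 g2
    have e1 : (ver z - ((r : ℝ) + 1) * i) ^ 2 ≤
        (r : ℝ) / 4 + (ver z - ((r : ℝ) + 1) * (i + 1)) ^ 2 := by linarith
    have e2 : (ver z - ((r : ℝ) + 1) * i) ^ 2 ≤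
        (r : ℝ) / 4 + (ver z - ((r : ℝ) + 1) * (i + -1)) ^ 2 := by linarith
    set ζ := ver z - ((r : ℝ) + 1) * i with hζ
    have e3 : ver z - ((r : ℝ) + 1) * (i + 1) = ζ - ((r : ℝ) + 1) := by rw [hζ]; ring
    have e4 : ver z - ((r : ℝ) + 1) * (i + -1) = ζ + ((r : ℝ) + 1) := by rw [hζ]; ring
    rw [e3] at e1
    rw [e4] at e2
    have hpos : (0 : ℝ) < (r : ℝ) + 1 := by linarith
    have f1 : ((r : ℝ) + 1) * ζ ≤ ((r : ℝ) + 1) * (((r : ℝ) + 1) / 2 + 1 / 8) := by nlinarith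
    have f2 : ((r : ℝ) + 1) * (-ζ) ≤ ((r : ℝ) + 1) * (((r : ℝ) + 1) / 2 + 1 / 8) := by nlinarith
    have f3 := le_of_mul_le_mul_left f1 hpos
    have f4 := le_of_mul_le_mul_left f2 hpos
    rw [abs_le]
    constructor <;> linarith

theorem s_EXT2 : S_DST → S_EXT2 := by
  intro hDST r D i ν s hs
  obtain ⟨h1, -, h3, -⟩ := hDST r
  have hr : (0 : ℝ) ≤ r := Nat.cast_nonneg r
  have hc : ∀ (j : ℤ) (μ : Fin r → ℤ) a, hor (cen D j μ) a = D.w j a + μ a := fun j μ a =>
    (h1 _ _).1 a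
  have hcv : ∀ (j : ℤ) (μ : Fin r → ℤ), ver (cen D j μ) = ((r : ℝ) + 1) * j := fun j μ => (h1 _ _).2
  have hs2 : s ^ 2 = 1 := by rcases hs with rfl | rfl <;> norm_num
  refine ⟨fun a => ?_, ?_⟩
  · let z : E r := mk (fun b => hor (cen D i ν) b + if b = a then s / 2 else 0)
      (((r : ℝ) + 1) * i)
    have hz : ∀ b, hor z b = hor (cen D i ν) b + if b = a then s / 2 else 0 := fun b =>
      (h1 _ _).1 b
    have hzv : ver z = ((r : ℝ) + 1) * i := (h1 _ _).2
    refine ⟨z, ?_, by rw [hz]; simp⟩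
    have hd : dist z (cen D i ν) ^ 2 = 1 / 4 := by
      rw [h3, hcv, hzv]
      have : ∀ b, (hor z b - hor (cen D i ν) b) ^ 2 = if b = a then 1 / 4 else 0 := by
        intro b
        rw [hz]
        split_ifs
        · have : (hor (cen D i ν) b + s / 2 - hor (cen D i ν) b) ^ 2 = s ^ 2 / 4 := by ring
          rw [this, hs2]
        · ring
      simp only [this]
      simp
    rintro _ ⟨j, μ, rfl⟩
    refine (sq_le_sq₀ dist_nonneg dist_nonneg).1 ?_
    rw [hd, h3, hcv, hzv]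
    rcases eq_or_ne j i with rfl | hji
    · have h4 : (hor z a - hor (cen D j μ) a) ^ 2 ≤ ∑ b, (hor z b - hor (cen D j μ) b) ^ 2 :=
        Finset.single_le_sum (f := fun b => (hor z b - hor (cen D j μ) b) ^ 2)
          (fun b _ => sq_nonneg _) (Finset.mem_univ a)
      have h5 : hor z a - hor (cen D j μ) a = ((ν a - μ a : ℤ) : ℝ) + s / 2 := by
        rw [hz, hc, hc]
        simp
        ring
      have h6 : (1 / 4 : ℝ) ≤ (((ν a - μ a : ℤ) : ℝ) + s / 2) ^ 2 := by
        set n : ℤ := ν a - μ a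
        rcases hs with rfl | rfl
        · rcases le_or_gt 0 n with h | h
          · have : (0 : ℝ) ≤ n := by exact_mod_cast h
            nlinarith
          · have : (n : ℝ) ≤ -1 := by exact_mod_cast (by omega : n ≤ -1)
            nlinarith
        · rcases le_or_gt n 0 with h | h
          · have : (n : ℝ) ≤ 0 := by exact_mod_cast h
            nlinarith
          · have : (1 : ℝ) ≤ n := by exact_mod_cast (by omega : 1 ≤ n)
            nlinarith
      rw [h5] at h4
      have : (((r : ℝ) + 1) * j - ((r : ℝ) + 1) * j) ^ 2 = 0 := by ring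
      linarith
    · have h4 : 0 ≤ ∑ b, (hor z b - hor (cen D j μ) b) ^ 2 := Finset.sum_nonneg fun b _ => sq_nonneg _
      have h5 : (1 : ℝ) ≤ ((i : ℝ) - j) ^ 2 := by
        have h6 : (1 : ℤ) ≤ (i - j) ^ 2 := by
          have : i - j ≠ 0 := by
            intro h
            apply hji
            omega
          have := Int.one_le_abs this
          nlinarith [sq_abs (i - j)]
        exact_mod_cast h6
      have h6 : (((r : ℝ) + 1) * i - ((r : ℝ) + 1) * j) ^ 2 = ((r : ℝ) + 1) ^ 2 * ((i : ℝ) - j) ^ 2 := by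
        ring
      nlinarith
  · let z : E r := mk (fun b => hor (cen D i ν) b)
      (((r : ℝ) + 1) * i + s * (((r : ℝ) + 1) / 2))
    have hz : ∀ b, hor z b = hor (cen D i ν) b := fun b => (h1 _ _).1 b
    have hzv : ver z = ((r : ℝ) + 1) * i + s * (((r : ℝ) + 1) / 2) := (h1 _ _).2
    refine ⟨z, ?_, hzv⟩
    have hd : dist z (cen D i ν) ^ 2 = (((r : ℝ) + 1) / 2) ^ 2 := by
      rw [h3, hcv, hzv]
      have h4 : ∑ b, (hor z b - hor (cen D i ν) b) ^ 2 = 0 := by
        refine Finset.sum_eq_zero fun b _ => ?_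
        rw [hz]
        ring
      rw [h4]
      have : (((r : ℝ) + 1) * i + s * (((r : ℝ) + 1) / 2) - ((r : ℝ) + 1) * i) ^ 2 =
        s ^ 2 * (((r : ℝ) + 1) / 2) ^ 2 := by ring
      rw [this, hs2]
      ring
    rintro _ ⟨j, μ, rfl⟩
    refine (sq_le_sq₀ dist_nonneg dist_nonneg).1 ?_
    rw [hd, h3, hcv, hzv]
    have h4 : 0 ≤ ∑ b, (hor z b - hor (cen D j μ) b) ^ 2 := Finset.sum_nonneg fun b _ => sq_nonneg _
    have h6 : (1 / 4 : ℝ) ≤ (((i - j : ℤ) : ℝ) + s / 2) ^ 2 := by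
      set n : ℤ := i - j
      rcases hs with rfl | rfl
      · rcases le_or_gt 0 n with h | h
        · have : (0 : ℝ) ≤ n := by exact_mod_cast h
          nlinarith
        · have : (n : ℝ) ≤ -1 := by exact_mod_cast (by omega : n ≤ -1)
          nlinarith
      · rcases le_or_gt n 0 with h | h
        · have : (n : ℝ) ≤ 0 := by exact_mod_cast h
          nlinarith
        · have : (1 : ℝ) ≤ n := by exact_mod_cast (by omega : 1 ≤ n)
          nlinarith
    have h7 : (((r : ℝ) + 1) * i + s * (((r : ℝ) + 1) / 2) - ((r : ℝ) + 1) * j) ^ 2 =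
        ((r : ℝ) + 1) ^ 2 * (((i - j : ℤ) : ℝ) + s / 2) ^ 2 := by
      push_cast
      ring
    rw [h7]
    have h8 : ((r : ℝ) + 1) ^ 2 * (1 / 4) ≤ ((r : ℝ) + 1) ^ 2 * (((i - j : ℤ) : ℝ) + s / 2) ^ 2 :=
      mul_le_mul_of_nonneg_left h6 (sq_nonneg _)
    nlinarith

end Pool.Agent.L7h31.CE
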