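import Mathlib

/-!
# Project CE (MP_6d95fe_co): `k_n(E^n) ≥ (n - 1) / 2`

THEOREM. Let `2 K + 3 ≤ n`. There is a monohedral face-to-face tiling of euclidean `n`-space by convex
polytopes in which for all `m ≤ K` any two tiles have congruent `m`-th coronas (by isometries
carrying the one tile to the other), but which is not isohedral. So `k_n(E^n) ≥ K + 1`.

CONSTRUCTION. `r = n - 1`. The tiles are the Voronoi cells of the points `(w_i + ν, (r + 1) i)`, `i ∈ ℤ`,
`ν ∈ ℤ^r`. From the layer `i` to the layer `i + 1` the lattice is shifted by `± 1/4` in the direction of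
the coordinate `i mod r`: `w_(i+1) = w_i + (ε_i / 4) e_(i mod r)`, `ε_i = 1` for `i ≠ 0`, `ε_0 = -1`.
A cell of the layer `i` depends only on the layers `i - 1`, `i`, `i + 1`, so the coronas of order `≤ K` depend
only on the layers from `i - K - 1` to `i + K + 1`, that is on `2 K + 2 ≤ r` shifts in different
directions, and the signs can be adjusted by reflections.
-/

set_option autoImplicit false

namespace Pool.Agent.L7h31.CE

open scoped BigOperators Topology

/-! ### definitions for any metric space -/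

variable {X : Type} [MetricSpace X]

/-- the closed half-space which contains `p` and is bounded by the bisector of `p`, `q` -/
def HS (p q : X) : Set X := {z | dist z p ≤ dist z q}

/-- convex polytopes -/
structure IsPolytope (P : Set X) : Prop where
  compact : IsCompact P
  interior : (interior P).Nonempty
  inter : ∃ F : Finset (X × X), (∀ c ∈ F, c.1 ≠ c.2) ∧ P = {z | ∀ c ∈ F, z ∈ HS c.1 c.2}

/-- faces: intersections with supporting hyperplanes -/
def IsFace (P A : Set X) : Prop :=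
  ∃ p q : X, p ≠ q ∧ P ⊆ HS p q ∧ A = {z | z ∈ P ∧ dist z p = dist z q}

/-- face-to-face tilings by convex polytopes -/
structure IsTiling (T : Set (Set X)) : Prop where
  countable : T.Countable
  cover : ∀ z, ∃ P ∈ T, z ∈ P
  disj : ∀ P ∈ T, ∀ Q ∈ T, P ≠ Q → Disjoint (interior P) (interior Q)
  poly : ∀ P ∈ T, IsPolytope P
  face : ∀ P ∈ T, ∀ Q ∈ T, P ≠ Q → P ∩ Q = ∅ ∨ (IsFace P (P ∩ Q) ∧ IsFace Q (P ∩ Q))

/-- all tiles are congruent -/
def Monohedral (T : Set (Set X)) : Prop := ∀ P ∈ T, ∀ Q ∈ T, ∃ g : X ≃ᵢ X, g '' P = Q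

/-- the symmetry group of the tiling is transitive on the tiles -/
def Isohedral (T : Set (Set X)) : Prop :=
  ∀ P ∈ T, ∀ Q ∈ T, ∃ g : X ≃ᵢ X, (fun A => g '' A) '' T = T ∧ g '' P = Q

/-- the `k`-th corona of `P` -/
def corona (T : Set (Set X)) (P : Set X) : ℕ → Set (Set X)
  | 0 => {P}
  | k + 1 => {Q | Q ∈ T ∧ ∃ R ∈ corona T P k, (R ∩ Q).Nonempty}

/-- condition (b) -/
def CondB (T : Set (Set X)) (k : ℕ) : Prop :=
  ∀ P ∈ T, ∀ Q ∈ T, ∃ g : X ≃ᵢ X, g '' P = Q ∧
    (fun A => g '' A) '' corona T P k = corona T Q k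

/-- Voronoi cell -/
def vor (S : Set X) (c : X) : Set X := {z | ∀ c' ∈ S, dist z c ≤ dist z c'}

/-- Voronoi tiling -/
def vtiles (S : Set X) : Set (Set X) := {P | ∃ c ∈ S, P = vor S c}

/-- [VPOLY] 100 lines. `R ≥ 0`. CLAIM: `vor S c` is the set `P'` of the `z` with `dist z c ≤ dist z c'` for
the finitely many `c' ∈ S` with `dist c c' ≤ 2 R + 1`. Let `z ∈ P'`. If `dist z c > R + 1/2` take `z'`
on the segment from `c` to `z` with `dist z' c = R + 1/2`; it is in `P'` too (half-spaces are convex and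
contain `c`); there is `c' ∈ S` with `dist z' c' ≤ R < dist z' c` and `dist c c' ≤ 2 R + 1/2`,
contradiction. So `dist z c ≤ R + 1/2` and for `dist c c' > 2 R + 1` we have
`dist z c' > R + 1/2 ≥ dist z c`.  Compact: closed and bounded. Interior: a small ball around `c`
(the other points of `S` have distance `≥ δ > 0` from `c`). -/
def S_VPOLY : Prop := ∀ (ι : Type) [Fintype ι] (S : Set (EuclideanSpace ℝ ι)) (R : ℝ),
  (∀ (z : EuclideanSpace ℝ ι) (ρ : ℝ), (S ∩ Metric.closedBall z ρ).Finite) →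
  (∀ z, ∃ c ∈ S, dist z c ≤ R) → ∀ c ∈ S, IsPolytope (vor S c)

/-- [VTIL] 100 lines, from `S_VPOLY`. Countable: `S` is the union of its parts in the balls with integral
radii. Cover: a nearest point of `S` exists. Disjoint interiors: if `z` is in the interior of both cells
then `dist z c = dist z c'`, and the points `z + t (c' - c)`, `t > 0` small, are closer to `c'` than to `c`.
Faces: `vor S c ∩ vor S c' = {z ∈ vor S c | dist z c = dist z c'}`. -/
def S_VTIL : Prop := ∀ (ι : Type) [Fintype ι] (S : Set (EuclideanSpace ℝ ι)) (R : ℝ),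
  (∀ (z : EuclideanSpace ℝ ι) (ρ : ℝ), (S ∩ Metric.closedBall z ρ).Finite) →
  (∀ z, ∃ c ∈ S, dist z c ≤ R) → IsTiling (vtiles S)

/-! ### the points -/

/-- euclidean space of dimension `r + 1` -/
abbrev E (r : ℕ) := EuclideanSpace ℝ (Fin (r + 1))

/-- the point `(x, y)` -/
noncomputable def mk {r : ℕ} (x : Fin r → ℝ) (y : ℝ) : E r :=
  WithLp.toLp 2 (Fin.snoc (α := fun _ => ℝ) x y)

/-- horizontal coordinates -/
def hor {r : ℕ} (z : E r) (a : Fin r) : ℝ := z (Fin.castSucc a)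

/-- vertical coordinate -/
def ver {r : ℕ} (z : E r) : ℝ := z (Fin.last r)

/-- [DST] 25 lines. -/
def S_DST : Prop := ∀ r : ℕ,
  (∀ (x : Fin r → ℝ) (y : ℝ), (∀ a, hor (mk x y) a = x a) ∧ ver (mk x y) = y) ∧
  (∀ z w : E r, (∀ a, hor z a = hor w a) → ver z = ver w → z = w) ∧
  (∀ z w : E r, dist z w ^ 2 = (∑ a, (hor z a - hor w a) ^ 2) + (ver z - ver w) ^ 2) ∧
  (∀ z w : E r, (∀ a, hor (z + w) a = hor z a + hor w a) ∧ ver (z + w) = ver z + ver w)

/-- the signs -/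
noncomputable def eps (i : ℤ) : ℝ := if i = 0 then -1 else 1

/-- the shifts -/
structure Dat (r : ℕ) where
  w : ℤ → Fin r → ℝ
  step : ∀ i a, w (i + 1) a = w i a + if i % (r : ℤ) = ((a : ℕ) : ℤ) then eps i / 4 else 0

/-- the points of the layer `i` -/
noncomputable def cen {r : ℕ} (D : Dat r) (i : ℤ) (ν : Fin r → ℤ) : E r :=
  mk (fun a => D.w i a + ν a) (((r : ℝ) + 1) * i)

/-- the points -/
def pts {r : ℕ} (D : Dat r) : Set (E r) := {c | ∃ i ν, c = cen D i ν}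

/-- [W] 30 lines. For instance
`w i a = (((i - a + r - 1) / r : ℤ) - (if 0 < i ∧ (a : ℕ) = 0 then 2 else 0)) / 4` (floor division). -/
def S_W : Prop := ∀ r : ℕ, 0 < r → Nonempty (Dat r)

/-- [SIG] 80 lines, from `S_DST`. In a ball there are finitely many `i` and for each of them finitely many
`ν`. Nearest layer: vertical distance `≤ (r + 1) / 2`; nearest `ν`: all horizontal ones `≤ 1/2`. -/
def S_SIG : Prop := ∀ (r : ℕ) (D : Dat r),
  (∀ (z : E r) (ρ : ℝ), (pts D ∩ Metric.closedBall z ρ).Finite) ∧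
  ∀ z, ∃ c ∈ pts D, dist z c ≤ (r : ℝ) + 1

/-- [EXT] 80 lines, from `S_DST`. With `t = 0` and `μ = ν ± e_a`: the first statement. Let `h = r + 1`,
`ζ = ver z - h i`, and let `c'` be a point of the layer `i + 1` with all horizontal distances from `z` at most
`1/2`: `ζ^2 ≤ dist z c ^ 2 ≤ dist z c' ^ 2 ≤ r / 4 + (h - ζ)^2`, so `ζ ≤ h / 2 + r / (8 h)`. The same for
`i - 1`. -/
def S_EXT : Prop := ∀ (r : ℕ) (D : Dat r) (i : ℤ) (ν : Fin r → ℤ) (z : E r),
  (∀ t : ℤ, |t| ≤ 1 → ∀ μ, dist z (cen D i ν) ≤ dist z (cen D (i + t) μ)) →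
  (∀ a, |hor z a - hor (cen D i ν) a| ≤ 1 / 2) ∧
    |ver z - ((r : ℝ) + 1) * i| ≤ ((r : ℝ) + 1) / 2 + 1 / 8

/-- [EXT2] 60 lines, from `S_DST`. `z = c + (s / 2) e_a`: its distance from `c` is `1/2`, and it is at least
`1/2` for all other points (in the layer `i` the coordinate `a` differs by an integer plus `1/2`; other
layers: the vertical distance is `≥ r + 1`). `z = c + (0, s (r + 1) / 2)`: vertical distances are
`≥ (r + 1) / 2`. -/
def S_EXT2 : Prop := ∀ (r : ℕ) (D : Dat r) (i : ℤ) (ν : Fin r → ℤ) (s : ℝ), (s = 1 ∨ s = -1) →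
  (∀ a, ∃ z ∈ vor (pts D) (cen D i ν), hor z a = hor (cen D i ν) a + s / 2) ∧
  ∃ z ∈ vor (pts D) (cen D i ν), ver z = ((r : ℝ) + 1) * i + s * (((r : ℝ) + 1) / 2)

/-- [LOC] 60 lines, from `S_EXT`, `S_DST`. For `|t| ≥ 2`: `h = r + 1`,
`dist z c ^ 2 ≤ r / 4 + (h / 2 + 1/8)^2` and `dist z c' ≥ |t| h - |ζ| ≥ 3 h / 2 - 1/8`, and
`(3 h / 2 - 1/8)^2 - (h / 2 + 1/8)^2 = 2 h (h - 1/4) ≥ r / 4`. -/
def S_LOC : Prop := ∀ (r : ℕ) (D : Dat r) (i : ℤ) (ν : Fin r → ℤ) (z : E r),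
  z ∈ vor (pts D) (cen D i ν) ↔
    ∀ t : ℤ, |t| ≤ 1 → ∀ μ, dist z (cen D i ν) ≤ dist z (cen D (i + t) μ)

/-- [ADJ] 15 lines, from `S_EXT` (its hypothesis holds for the points of the cell). -/
def S_ADJ : Prop := ∀ (r : ℕ) (D : Dat r) (i j : ℤ) (ν μ : Fin r → ℤ),
  (vor (pts D) (cen D i ν) ∩ vor (pts D) (cen D j μ)).Nonempty → |j - i| ≤ 1

/-! ### the coronas -/

/-- [WST] 100 lines. `σ a ≡ a + (j - i)` modulo `r`. For `a` let `q` be the integer with
`i - K - 1 ≤ q ≤ i + K`, `q % r = a`, if there is one (it is unique as `2 K + 2 ≤ r`), and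
`s a = eps (q + (j - i)) * eps q`; otherwise `s a = 1`. The equation for `t` follows by induction from `0`
upwards and from `0` downwards: the steps used are those with the indices from `i - K - 1` to `i + K`. -/
def S_WST : Prop := ∀ (r K : ℕ) (D : Dat r), 2 * K + 2 ≤ r → ∀ i j : ℤ,
  ∃ (σ : Equiv.Perm (Fin r)) (s : Fin r → ℝ), (∀ a, s a = 1 ∨ s a = -1) ∧
    ∀ t : ℤ, |t| ≤ K + 1 → ∀ a,
      D.w (j + t) (σ a) - D.w j (σ a) = s a * (D.w (i + t) a - D.w i a)

/-- [WIS] 50 lines, from `S_DST`. -/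
def S_WIS : Prop := ∀ (r : ℕ) (σ : Equiv.Perm (Fin r)) (s : Fin r → ℝ), (∀ a, s a = 1 ∨ s a = -1) →
  ∀ c c' : E r, ∃ g : E r ≃ᵢ E r, ∀ z,
    (∀ a, hor (g z) (σ a) = hor c' (σ a) + s a * (hor z a - hor c a)) ∧
    ver (g z) = ver c' + (ver z - ver c)

/-- [WIN] 60 lines, from `S_WST`, `S_WIS`, `S_DST`: `c = cen D i ν`, `c' = cen D j μ`. -/
def S_WIN : Prop := ∀ (r K : ℕ) (D : Dat r), 2 * K + 2 ≤ r → ∀ (i j : ℤ) (ν μ : Fin r → ℤ),
  ∃ g : E r ≃ᵢ E r, g (cen D i ν) = cen D j μ ∧ ∀ t : ℤ, |t| ≤ K + 1 →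
    (∀ ν', ∃ μ', g (cen D (i + t) ν') = cen D (j + t) μ') ∧
    (∀ μ', ∃ ν', g (cen D (i + t) ν') = cen D (j + t) μ')

/-- [IMG] 50 lines, from `S_WIN`, `S_LOC`: `g '' vor (pts D) c = vor (pts D) (g c)` for the points `c` of the
layers `i + t`, `|t| ≤ K`, because the layers `i + t - 1`, `i + t`, `i + t + 1` are mapped onto the
corresponding ones. -/
def S_IMG : Prop := ∀ (r K : ℕ) (D : Dat r), 2 * K + 2 ≤ r → ∀ (i j : ℤ) (ν μ : Fin r → ℤ),
  ∃ g : E r ≃ᵢ E r, g '' vor (pts D) (cen D i ν) = vor (pts D) (cen D j μ) ∧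
    ∀ t : ℤ, |t| ≤ K →
    (∀ ν', ∃ μ', g '' vor (pts D) (cen D (i + t) ν') = vor (pts D) (cen D (j + t) μ')) ∧
    (∀ μ', ∃ ν', g '' vor (pts D) (cen D (i + t) ν') = vor (pts D) (cen D (j + t) μ'))

/-- [COR] 60 lines, from `S_IMG`, `S_ADJ` (copy `Pool.Agent.L7h31.CR.s_COR`). -/
def S_COR : Prop := ∀ (r K : ℕ) (D : Dat r), 2 * K + 2 ≤ r → ∀ m : ℕ, m ≤ K →
  CondB (vtiles (pts D)) m

/-! ### the tiling is not isohedral -/

/-- [MAP] 60 lines, from `S_EXT`, `S_EXT2`. `h = r + 1`. Horizontal: the two points of `S_EXT2` for `a` are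
mapped to points of the second cell, whose coordinate `σ a` is in an interval of length one around that of
`cen D j μ`. Vertical: the point `z` with `ver z = h i + δ h / 2` gives
`β + δ h i + h / 2 ≤ h j + h / 2 + 1/8`, the other one gives `β + δ h i - h / 2 ≥ h j - h / 2 - 1/8`. -/
def S_MAP : Prop := ∀ (r : ℕ) (D : Dat r) (i j : ℤ) (ν μ : Fin r → ℤ) (g : E r → E r)
  (σ : Equiv.Perm (Fin r)) (s b : Fin r → ℝ) (δ β : ℝ), (∀ a, s a = 1 ∨ s a = -1) →
  (δ = 1 ∨ δ = -1) → (∀ z, (∀ a, hor (g z) (σ a) = s a * hor z a + b (σ a)) ∧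
    ver (g z) = δ * ver z + β) →
  g '' vor (pts D) (cen D i ν) = vor (pts D) (cen D j μ) →
  (∀ a, hor (cen D j μ) (σ a) = s a * hor (cen D i ν) a + b (σ a)) ∧
    |β + δ * (((r : ℝ) + 1) * i) - ((r : ℝ) + 1) * j| ≤ 1 / 8

/-- [TRA] 100 lines, from `S_MAP` (with `σ = 1`, `s = 1`, `δ = 1`, `b = hor τ`, `β = ver τ`). The cell of
`cen D i ν` is mapped to that of some `cen D j μ` with `|ver τ - (r + 1) (j - i)| ≤ 1/8`, so `j - i = s` is
the same number for all `i`, `ν`.  By the horizontal coordinates `D.w (i + s) a - D.w i a - hor τ a` is an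
integer for all `i`, `a`. Subtract the numbers for `i = 1` and `i = 0`, `a = 0`: by `Dat.step`
(`0 % r = 0`) the number `x - eps 0 / 4 = x + 1/4` is an integer, where `x` is `eps s / 4` or `0`; so
`eps s = -1`, `s = 0`.  Hence `hor τ a` is an integer (`i = j = 0`) and `|ver τ| ≤ 1/8`. The same holds for
the translations by `n τ`, `n ∈ ℕ`, which preserve the tiling too, so `ver τ = 0`. -/
def S_TRA : Prop := ∀ (r : ℕ) (D : Dat r), 2 ≤ r → ∀ τ : E r,
  (fun A => (fun z => τ + z) '' A) '' vtiles (pts D) = vtiles (pts D) →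
  ver τ = 0 ∧ ∀ a, ∃ m : ℤ, hor τ a = m

/-- [PER] 25 lines, from `S_DST`: `pts D` is invariant under the translation. -/
def S_PER : Prop := ∀ (r : ℕ) (D : Dat r) (τ : E r), ver τ = 0 → (∀ a, ∃ m : ℤ, hor τ a = m) →
  (fun A => (fun z => τ + z) '' A) '' vtiles (pts D) = vtiles (pts D)

/-- [LIN] 120 lines, from `S_TRA`, `S_PER`, `S_DST`. By the theorem of Mazur and Ulam
(`IsometryEquiv.toRealAffineIsometryEquiv`) `g z = Λ z + c` with a linear isometry `Λ`. The translation by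
`e_a` (`S_PER`) conjugated by `g` is the translation by `Λ e_a`, it preserves the tiling, so by `S_TRA` `Λ e_a` is
horizontal with integral coordinates and length one, so `Λ e_a = s a • e_(σ a)`. `σ` is injective as the
`Λ e_a` are orthogonal. The image of the vertical unit vector is orthogonal to all horizontal ones. -/
def S_LIN : Prop := ∀ (r : ℕ) (D : Dat r), 2 ≤ r → ∀ g : E r ≃ᵢ E r,
  (fun A => g '' A) '' vtiles (pts D) = vtiles (pts D) →
  ∃ (σ : Equiv.Perm (Fin r)) (s b : Fin r → ℝ) (δ β : ℝ), (∀ a, s a = 1 ∨ s a = -1) ∧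
    (δ = 1 ∨ δ = -1) ∧ ∀ z, (∀ a, hor (g z) (σ a) = s a * hor z a + b (σ a)) ∧
      ver (g z) = δ * ver z + β

/-- [NON] 120 lines, from `S_LIN`, `S_MAP`. `g` maps the tiling to itself and the cell of `cen D 0 0` to that of
`cen D 2 0`. By `S_MAP` the cell of `cen D i 0` is mapped to one of the layer `i + 2` (if `δ = 1`) or
`2 - i` (if `δ = -1`), for all `i`, and `D.w (i + 2) (σ a) - s a * D.w i a - b (σ a)`
(`D.w (2 - i) (σ a) - s a * D.w i a - b (σ a)`) is an integer. Take differences for `i + 1` and `i`, `a = 0`: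
if `δ = 1`: `x_i - s 0 * eps i / 4` is an integer for `i = 0` and `i = r`, where `x_i` is `eps (i + 2) / 4`
or `0`, so `x_i ∈ {1/4, 0}`: `s 0 = -1` from `i = 0` and `s 0 = 1` from `i = r`. If `δ = -1`:
`- x_i - s 0 * eps i / 4`, where `x_i` is `eps (1 - i) / 4` or `0`, so `x_i ∈ {1/4, 0}`
(`1 - r ≠ 0`): `s 0 = 1` from `i = 0` and `s 0 = -1` from `i = r`. -/
def S_NON : Prop := ∀ (r : ℕ) (D : Dat r), 2 ≤ r → ¬ Isohedral (vtiles (pts D))

/-- the final theorem (`n = r + 1`) -/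
def S_FINAL : Prop := ∀ r K : ℕ, 2 * K + 2 ≤ r → ∃ T : Set (Set (E r)), IsTiling T ∧ Monohedral T ∧
  (∀ m : ℕ, m ≤ K → CondB T m) ∧ ¬ Isohedral T

end Pool.Agent.L7h31.CE
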